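import Pool.Agent.H207R2.BL.Mirror

/-! Towers: a cap with `k` equal layers. -/

set_option autoImplicit false

namespace Pool.Agent.NH46.BT

open Polynomial Pool.Agent.H207R2.BL

/-- The half which arises when the layer `A`, a graph with the inner boundary vertices
`inr (inl i)` and the outer boundary vertices `inr (inr i)`, is attached to the half `N`: the inner
boundary of `A` is identified with the boundary of `N`, the outer boundary of `A` is the new
boundary. -/
def attach {V U : Type} {n : ℕ} (N : SimpleGraph (V ⊕ Fin n))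
    (A : SimpleGraph (U ⊕ (Fin n ⊕ Fin n))) : SimpleGraph ((V ⊕ (U ⊕ Fin n)) ⊕ Fin n) :=
  SimpleGraph.map (Sum.elim (fun v => Sum.inl (Sum.inl v))
    (fun i => Sum.inl (Sum.inr (Sum.inr i)))) N ⊔
  SimpleGraph.map (Sum.elim (fun u => Sum.inl (Sum.inr (Sum.inl u)))
    (Sum.elim (fun i => Sum.inl (Sum.inr (Sum.inr i))) (fun i => Sum.inr i))) A

/-- the type of the interior vertices of the cap with `k` layers -/
def TowerVertex (V U : Type) (n : ℕ) : ℕ → Type
  | 0 => V
  | k + 1 => TowerVertex V U n k ⊕ (U ⊕ Fin n)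

/-- the cap `N` with `k` layers `A` -/
def tower {V U : Type} {n : ℕ} (N : SimpleGraph (V ⊕ Fin n))
    (A : SimpleGraph (U ⊕ (Fin n ⊕ Fin n))) :
    ∀ k : ℕ, SimpleGraph (TowerVertex V U n k ⊕ Fin n)
  | 0 => N
  | k + 1 => attach (tower N A k) A

/-- `N` has an automorphism which maps the boundary vertex `i` to `ρ i`. -/
def Rotatable {V : Type} {n : ℕ} (ρ : Fin n ≃ Fin n) (N : SimpleGraph (V ⊕ Fin n)) : Prop :=
  ∃ σ : V ≃ V, ∀ x y, N.Adj x y ↔ N.Adj (Sum.map σ ρ x) (Sum.map σ ρ y)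

/-- `A` has an automorphism which maps the inner boundary vertex `i` to the outer boundary vertex
`ρ i` and the outer boundary vertex `i` to the inner boundary vertex `i`. -/
def Reversible {U : Type} {n : ℕ} (ρ : Fin n ≃ Fin n) (A : SimpleGraph (U ⊕ (Fin n ⊕ Fin n))) :
    Prop :=
  ∃ τ : U ≃ U, ∀ x y, A.Adj x y ↔
    A.Adj (Sum.map τ (Sum.elim (fun i => Sum.inr (ρ i)) (fun i => Sum.inl i)) x)
      (Sum.map τ (Sum.elim (fun i => Sum.inr (ρ i)) (fun i => Sum.inl i)) y)

theorem map_sup' {V W : Type} (f : V → W) (G H : SimpleGraph V) :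
    SimpleGraph.map f (G ⊔ H) = SimpleGraph.map f G ⊔ SimpleGraph.map f H := by
  ext x y
  simp only [SimpleGraph.map_adj', SimpleGraph.sup_adj]
  constructor
  · rintro ⟨hne, u, v, h | h, h1, h2⟩
    · exact Or.inl ⟨hne, u, v, h, h1, h2⟩
    · exact Or.inr ⟨hne, u, v, h, h1, h2⟩
  · rintro (⟨hne, u, v, h, h1, h2⟩ | ⟨hne, u, v, h, h1, h2⟩)
    · exact ⟨hne, u, v, Or.inl h, h1, h2⟩
    · exact ⟨hne, u, v, Or.inr h, h1, h2⟩

theorem map_eq_self {V : Type} (e : V ≃ V) (G : SimpleGraph V)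
    (h : ∀ x y, G.Adj x y ↔ G.Adj (e x) (e y)) : SimpleGraph.map e G = G := by
  ext x y
  simp only [SimpleGraph.map_adj']
  constructor
  · rintro ⟨-, u, v, h1, rfl, rfl⟩
    exact (h u v).1 h1
  · intro h1
    refine ⟨h1.ne, e.symm x, e.symm y, ?_, e.apply_symm_apply x, e.apply_symm_apply y⟩
    rw [h]
    simpa using h1

theorem map_map' {V W X : Type} (f : V → W) (g : W → X) (G : SimpleGraph V) :
    SimpleGraph.map g (SimpleGraph.map f G) = SimpleGraph.map (g ∘ f) G := by
  simp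

/-- the permutation of the vertices of a layer in the definition of `Reversible` -/
def revEquiv {U : Type} {n : ℕ} (τ : U ≃ U) (ρ : Fin n ≃ Fin n) :
    (U ⊕ (Fin n ⊕ Fin n)) ≃ (U ⊕ (Fin n ⊕ Fin n)) where
  toFun := Sum.map τ (Sum.elim (fun i => Sum.inr (ρ i)) (fun i => Sum.inl i))
  invFun := Sum.map τ.symm (Sum.elim (fun i => Sum.inr i) (fun i => Sum.inl (ρ.symm i)))
  left_inv := by rintro (u | i | i) <;> simp
  right_inv := by rintro (u | i | i) <;> simp

/-- the bijection of the vertices of the two graphs -/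
def moveEquiv {V U W : Type} {n : ℕ} (σ : V ≃ V) (τ : U ≃ U) (ρ : Fin n ≃ Fin n) :
    (((V ⊕ (U ⊕ Fin n)) ⊕ W) ⊕ Fin n) ≃ ((V ⊕ (W ⊕ (U ⊕ Fin n))) ⊕ Fin n) where
  toFun := fun x => match x with
    | Sum.inl (Sum.inl (Sum.inl v)) => Sum.inl (Sum.inl (σ v))
    | Sum.inl (Sum.inl (Sum.inr (Sum.inl u))) => Sum.inl (Sum.inr (Sum.inr (Sum.inl (τ u))))
    | Sum.inl (Sum.inl (Sum.inr (Sum.inr i))) => Sum.inr (ρ i)
    | Sum.inl (Sum.inr w) => Sum.inl (Sum.inr (Sum.inl w))
    | Sum.inr i => Sum.inl (Sum.inr (Sum.inr (Sum.inr i)))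
  invFun := fun x => match x with
    | Sum.inl (Sum.inl v) => Sum.inl (Sum.inl (Sum.inl (σ.symm v)))
    | Sum.inl (Sum.inr (Sum.inr (Sum.inl u))) => Sum.inl (Sum.inl (Sum.inr (Sum.inl (τ.symm u))))
    | Sum.inr i => Sum.inl (Sum.inl (Sum.inr (Sum.inr (ρ.symm i))))
    | Sum.inl (Sum.inr (Sum.inl w)) => Sum.inl (Sum.inr w)
    | Sum.inl (Sum.inr (Sum.inr (Sum.inr i))) => Sum.inr i
  left_inv := by rintro (((v | u | i) | w) | i) <;> simp
  right_inv := by rintro ((v | w | u | i) | i) <;> simp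

/-- Moving a layer from one side to the other. -/
theorem move {V U W : Type} {n : ℕ} {ρ : Fin n ≃ Fin n} {N : SimpleGraph (V ⊕ Fin n)}
    {M : SimpleGraph (W ⊕ Fin n)} {A : SimpleGraph (U ⊕ (Fin n ⊕ Fin n))}
    (hN : Rotatable ρ N) (hA : Reversible ρ A) :
    Nonempty (glue (attach N A) M ≃g glue N (attach M A)) := by
  obtain ⟨σ, hσ⟩ := hN
  obtain ⟨τ, hτ⟩ := hA
  have e := SimpleGraph.Iso.map (moveEquiv (W := W) σ τ ρ) (glue (attach N A) M)
  have key : SimpleGraph.map (moveEquiv (W := W) σ τ ρ) (glue (attach N A) M) =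
      glue N (attach M A) := by
    have h1 : SimpleGraph.map (Equiv.sumCongr σ ρ) N = N := map_eq_self _ _ hσ
    have h2 : SimpleGraph.map (revEquiv τ ρ) A = A := map_eq_self _ _ hτ
    have h3 : glue N (attach M A) = glue (SimpleGraph.map (Equiv.sumCongr σ ρ) N)
        (attach M (SimpleGraph.map (revEquiv τ ρ) A)) := by rw [h1, h2]
    rw [h3]
    unfold glue attach
    simp only [map_sup', map_map']
    rw [sup_assoc, sup_comm (SimpleGraph.map _ A) (SimpleGraph.map _ M)]
    congr 1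
    · congr 1
      funext x
      rcases x with v | i <;> rfl
    · congr 1
      · congr 1
        funext x
        rcases x with v | i <;> rfl
      · congr 1
        funext x
        rcases x with u | i | i <;> rfl
  rw [key] at e
  exact ⟨e⟩

theorem rotatable_attach {V U : Type} {n : ℕ} {ρ : Fin n ≃ Fin n} {N : SimpleGraph (V ⊕ Fin n)}
    {A : SimpleGraph (U ⊕ (Fin n ⊕ Fin n))} (hN : Rotatable ρ N) (hA : Reversible ρ A) :
    Rotatable ρ (attach N A) := by
  obtain ⟨σ, hσ⟩ := hN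
  obtain ⟨τ, hτ⟩ := hA
  refine ⟨Equiv.sumCongr σ (Equiv.sumCongr (τ.trans τ) ρ), ?_⟩
  have h1 : SimpleGraph.map (Equiv.sumCongr σ ρ) N = N := map_eq_self _ _ hσ
  have h2 : SimpleGraph.map (revEquiv τ ρ) A = A := map_eq_self _ _ hτ
  have h3 : SimpleGraph.map ((revEquiv τ ρ).trans (revEquiv τ ρ)) A = A := by
    have : SimpleGraph.map ((revEquiv τ ρ).trans (revEquiv τ ρ)) A =
      SimpleGraph.map (revEquiv τ ρ) (SimpleGraph.map (revEquiv τ ρ) A) := by
      rw [map_map']
      rfl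
    rw [this, h2, h2]
  have key : SimpleGraph.map (Equiv.sumCongr (Equiv.sumCongr σ (Equiv.sumCongr (τ.trans τ) ρ)) ρ)
      (attach N A) = attach N A := by
    have h4 : attach N A = attach (SimpleGraph.map (Equiv.sumCongr σ ρ) N)
        (SimpleGraph.map ((revEquiv τ ρ).trans (revEquiv τ ρ)) A) := by rw [h1, h3]
    conv_rhs => rw [h4]
    unfold attach
    simp only [map_sup', map_map']
    congr 1
    · congr 1
      funext x
      rcases x with v | i <;> rfl
    · congr 1
      funext x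
      rcases x with u | i | i <;> rfl
  intro x y
  have e := SimpleGraph.Iso.map
    (Equiv.sumCongr (Equiv.sumCongr σ (Equiv.sumCongr (τ.trans τ) ρ)) ρ) (attach N A)
  have h5 : (attach N A).Adj x y ↔ (SimpleGraph.map
      (Equiv.sumCongr (Equiv.sumCongr σ (Equiv.sumCongr (τ.trans τ) ρ)) ρ) (attach N A)).Adj
      (Equiv.sumCongr (Equiv.sumCongr σ (Equiv.sumCongr (τ.trans τ) ρ)) ρ x)
      (Equiv.sumCongr (Equiv.sumCongr σ (Equiv.sumCongr (τ.trans τ) ρ)) ρ y) :=
    (SimpleGraph.Iso.map_adj_iff (SimpleGraph.Iso.map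
      (Equiv.sumCongr (Equiv.sumCongr σ (Equiv.sumCongr (τ.trans τ) ρ)) ρ)
      (attach N A))).symm
  rw [h5, key]
  rfl

theorem rotatable_tower {V U : Type} {n : ℕ} {ρ : Fin n ≃ Fin n} {N : SimpleGraph (V ⊕ Fin n)}
    {A : SimpleGraph (U ⊕ (Fin n ⊕ Fin n))} (hN : Rotatable ρ N) (hA : Reversible ρ A) (k : ℕ) :
    Rotatable ρ (tower N A k) := by
  induction k with
  | zero => exact hN
  | succ k ih => exact rotatable_attach ih hA

/-- The union of two caps with `i` and `j` layers is the union of caps with `i + j` layers and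
without layers. -/
theorem tower_move {V U : Type} {n : ℕ} {ρ : Fin n ≃ Fin n} {N : SimpleGraph (V ⊕ Fin n)}
    {A : SimpleGraph (U ⊕ (Fin n ⊕ Fin n))} (hN : Rotatable ρ N) (hA : Reversible ρ A) (i : ℕ) :
    ∀ j, Nonempty (glue (tower N A (i + j)) (tower N A 0) ≃g glue (tower N A i) (tower N A j)) := by
  intro j
  induction j generalizing i with
  | zero => exact ⟨SimpleGraph.Iso.refl⟩
  | succ j ih =>
    obtain ⟨e⟩ := ih (i + 1)
    obtain ⟨e'⟩ := move (N := tower N A i) (M := tower N A j) (rotatable_tower hN hA i) hA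
    rw [show i + (j + 1) = i + 1 + j by omega]
    exact ⟨e.trans e'⟩

instance {V U : Type} {n : ℕ} [Finite V] [Finite U] (k : ℕ) : Finite (TowerVertex V U n k) := by
  induction k with
  | zero => exact inferInstanceAs (Finite V)
  | succ k ih => exact inferInstanceAs (Finite (TowerVertex V U n k ⊕ (U ⊕ Fin n)))

end Pool.Agent.NH46.BT
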