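import Pool.Agent.NH46.BT.Tower
import Pool.Agent.NH46.BT.Stack
import Pool.Agent.NH19.BLA.Rank

/-! A finite criterion for all towers. -/

set_option autoImplicit false

namespace Pool.Agent.NH46.BT

open Polynomial Pool.Agent.H207R2.BL Finset

/-- a vector among the first `D + 1` vectors of a sequence in a space of dimension `D` is a linear
combination of the vectors before it -/
theorem exists_dep {ι : Type} [Fintype ι] (c : ℕ → ι → ℝ) :
    ∃ d, d ≤ Fintype.card ι ∧ ∃ b : Fin d → ℝ, c d = ∑ i : Fin d, b i • c i := by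
  by_contra hcon
  push Not at hcon
  have key : ∀ k, k ≤ Fintype.card ι + 1 → LinearIndependent ℝ (fun i : Fin k => c i) := by
    intro k
    induction k with
    | zero => intro _; exact linearIndependent_empty_type
    | succ k ih =>
      intro hk
      rw [linearIndependent_finSucc']
      refine ⟨ih (by omega), ?_⟩
      intro hmem
      have h0 : (Fin.init fun i : Fin (k + 1) => c i) = fun i : Fin k => c i := rfl
      have : c k ∈ Submodule.span ℝ (Set.range (fun i : Fin k => c i)) := by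
        rw [h0] at hmem
        exact hmem
      rw [Submodule.mem_span_range_iff_exists_fun] at this
      obtain ⟨b, hb⟩ := this
      exact hcon k (by omega) b hb.symm
  have h1 := (key _ le_rfl).fintype_card_le_finrank
  simp at h1

/-- the sequence is determined by its first terms -/
theorem exists_rep {D d : ℕ} (hd : d ≤ D) {s : ℕ → ℝ} {b : Fin d → ℝ}
    (h : ∀ j, s (d + j) = ∑ i : Fin d, b i * s (i + j)) (k : ℕ) :
    ∃ e : ℕ → ℝ, ∀ j, s (k + j) = ∑ i ∈ range D, e i * s (i + j) := by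
  induction k using Nat.strong_induction_on with
  | _ k ih =>
    rcases lt_or_ge k D with hk | hk
    · refine ⟨fun i => if i = k then 1 else 0, fun j => ?_⟩
      simp [Finset.sum_ite_eq', hk]
    · have h1 : ∀ i : Fin d, ∃ e : ℕ → ℝ, ∀ j, s ((i + (k - d)) + j) =
          ∑ t ∈ range D, e t * s (t + j) := fun i => ih _ (by have := i.2; omega)
      choose E hE using h1
      refine ⟨fun t => ∑ i : Fin d, b i * E i t, fun j => ?_⟩
      have h2 : k + j = d + ((k - d) + j) := by omega
      rw [h2, h]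
      simp_rw [Finset.sum_mul]
      rw [Finset.sum_comm]
      refine Finset.sum_congr rfl fun i _ => ?_
      rw [show (i : ℕ) + ((k - d) + j) = (i + (k - d)) + j by omega, hE i j, Finset.mul_sum]
      exact Finset.sum_congr rfl fun t _ => by ring

/-- if the shifted form is positive semidefinite on the first terms then it is so everywhere -/
theorem shift_cs {D : ℕ} {s : ℕ → ℝ}
    (hrep : ∀ k, ∃ e : ℕ → ℝ, ∀ j, s (k + j) = ∑ i ∈ range D, e i * s (i + j))
    (hpsd : ∀ a : ℕ → ℝ, 0 ≤ ∑ i ∈ range D, ∑ j ∈ range D, a i * a j * s (i + j + 1))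
    (k l : ℕ) : 0 ≤ s (2 * k + 1) ∧ s (k + l + 1) ^ 2 ≤ s (2 * k + 1) * s (2 * l + 1) := by
  have bil : ∀ k l : ℕ, ∀ e f : ℕ → ℝ, (∀ j, s (k + j) = ∑ i ∈ range D, e i * s (i + j)) →
      (∀ j, s (l + j) = ∑ i ∈ range D, f i * s (i + j)) →
      s (k + l + 1) = ∑ i ∈ range D, ∑ j ∈ range D, e i * f j * s (i + j + 1) := by
    intro k l e f he hf
    rw [add_assoc, he]
    refine Finset.sum_congr rfl fun i _ => ?_
    rw [show i + (l + 1) = l + (i + 1) by omega, hf, Finset.mul_sum]
    refine Finset.sum_congr rfl fun j _ => ?_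
    rw [show j + (i + 1) = i + j + 1 by omega]
    ring
  obtain ⟨e, he⟩ := hrep k
  obtain ⟨f, hf⟩ := hrep l
  have h : ∀ x y : ℝ, 0 ≤ x * x * s (2 * k + 1) + x * y * s (k + l + 1) +
      y * x * s (k + l + 1) + y * y * s (2 * l + 1) := by
    intro x y
    have h1 := hpsd (fun i => x * e i + y * f i)
    have e1 := bil k k e e he he
    have e2 := bil k l e f he hf
    have e3 := bil l k f e hf he
    have e4 := bil l l f f hf hf
    rw [show l + k + 1 = k + l + 1 by omega] at e3
    rw [two_mul, two_mul, e4, e1]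
    have h2 : ∑ i ∈ range D, ∑ j ∈ range D, (x * e i + y * f i) * (x * e j + y * f j) *
        s (i + j + 1) = x * x * ∑ i ∈ range D, ∑ j ∈ range D, e i * e j * s (i + j + 1) +
        x * y * ∑ i ∈ range D, ∑ j ∈ range D, e i * f j * s (i + j + 1) +
        y * x * ∑ i ∈ range D, ∑ j ∈ range D, f i * e j * s (i + j + 1) +
        y * y * ∑ i ∈ range D, ∑ j ∈ range D, f i * f j * s (i + j + 1) := by
      simp only [Finset.mul_sum, ← Finset.sum_add_distrib]
      exact Finset.sum_congr rfl fun i _ => Finset.sum_congr rfl fun j _ => by ring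
    rw [h2, ← e2, ← e3] at h1
    exact h1
  have ha0 : 0 ≤ s (2 * k + 1) := by simpa using h 1 0
  have hc0 : 0 ≤ s (2 * l + 1) := by simpa using h 0 1
  refine ⟨ha0, ?_⟩
  rcases hc0.lt_or_eq with h1 | h1
  · have := quad_ineq h1 h
    linarith
  · rcases ha0.lt_or_eq with h2 | h2
    · have := quad_ineq (A := s (2 * l + 1)) (B := s (k + l + 1)) h2 (fun x y => by
        have := h y x
        linarith)
      linarith
    · have h3 := h 1 1
      have h4 := h 1 (-1)
      rw [← h1, ← h2] at h3 h4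
      have h5 : s (k + l + 1) = 0 := by linarith
      rw [h5, ← h1]
      simp

/-- a sequence with a relation between its translates -/
theorem exists_order {D : ℕ} {s : ℕ → ℝ} {a : Fin (D + 1) → ℝ} (ha : a ≠ 0)
    (h : ∀ j, ∑ i : Fin (D + 1), a i * s (i + j) = 0) :
    ∃ d, d ≤ D ∧ ∃ b : Fin d → ℝ, ∀ j, s (d + j) = ∑ i : Fin d, b i * s (i + j) := by
  classical
  -- the last index with a nonzero coefficient
  let g : ℕ → ℝ := fun i => if hi : i < D + 1 then a ⟨i, hi⟩ else 0
  have hg : ∀ i : Fin (D + 1), g i = a i := fun i => by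
    change (if hi : (i : ℕ) < D + 1 then a ⟨i, hi⟩ else 0) = a i
    rw [dif_pos i.2]
  have hsum : ∀ j, ∑ i ∈ range (D + 1), g i * s (i + j) = 0 := by
    intro j
    rw [Finset.sum_range, ← h j]
    exact Finset.sum_congr rfl fun i _ => by rw [hg]
  have hex : ∃ i, i ≤ D ∧ g i ≠ 0 := by
    obtain ⟨i, hi⟩ := Function.ne_iff.1 ha
    exact ⟨i, by omega, by rw [hg]; exact hi⟩
  obtain ⟨d, ⟨hd, hgd⟩, hmax⟩ : ∃ d, (d ≤ D ∧ g d ≠ 0) ∧ ∀ i, d < i → i ≤ D → g i = 0 := by
    have hP := Nat.findGreatest_spec (P := fun i => g i ≠ 0) (n := D) hex.choose_spec.1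
      hex.choose_spec.2
    refine ⟨Nat.findGreatest (fun i => g i ≠ 0) D, ⟨Nat.findGreatest_le D, hP⟩, ?_⟩
    intro i hi hiD
    by_contra hne
    exact Nat.findGreatest_is_greatest hi hiD hne
  refine ⟨d, hd, fun i => -(g i) / g d, fun j => ?_⟩
  have h1 := hsum j
  have h2 : ∑ i ∈ range (D + 1), g i * s (i + j) = ∑ i ∈ range (d + 1), g i * s (i + j) := by
    symm
    apply Finset.sum_subset
    · intro i hi
      rw [Finset.mem_range] at hi ⊢
      omega
    · intro i hi hi'
      rw [Finset.mem_range] at hi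
      rw [Finset.mem_range] at hi'
      rw [hmax i (by omega) (by omega), zero_mul]
  rw [h2, Finset.sum_range_succ, Finset.sum_range] at h1
  have h3 : ∑ i : Fin d, -(g i) / g d * s (i + j) = -(∑ i : Fin d, g i * s (i + j)) / g d := by
    rw [neg_div, Finset.sum_div, ← Finset.sum_neg_distrib]
    exact Finset.sum_congr rfl fun i _ => by ring
  rw [h3, eq_div_iff hgd]
  linarith

section

variable {n : ℕ} {V : ℕ → Type} [∀ i, Finite (V i)] {N : ∀ i, SimpleGraph (V i ⊕ Fin n)}
  {p : ℕ → ℝ[X]}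

/-- a vector of norm zero gives a relation between the translates -/
theorem null_rel (hN : ∀ i, Crossless (N i))
    (hp : ∀ i j, IsChrom (glue (N i) (N j)) (p (i + j))) {q : ℝ} (hq : 4 ≤ q) {D : ℕ}
    {a : Fin (D + 1) → ℝ}
    (h0 : ∑ i : Fin (D + 1), ∑ j : Fin (D + 1), a i * a j * (p (i + j)).eval q = 0) (j : ℕ) :
    ∑ i : Fin (D + 1), a i * (p (i + j)).eval q = 0 := by
  let idx : Option (Fin (D + 1)) → ℕ := fun o => o.elim j (fun i => i)
  have key : ∀ t : ℝ, 0 ≤ t * t * (p (j + j)).eval q +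
      2 * t * ∑ i : Fin (D + 1), a i * (p (i + j)).eval q := by
    intro t
    have h := psd (fun o => V (idx o)) (fun o => N (idx o)) (fun o => hN _)
      (fun o o' => p (idx o + idx o')) (fun o o' => hp _ _) q hq (fun o => o.elim t a)
    simp only [Fintype.sum_option, Option.elim_none, Option.elim_some, idx] at h
    rw [Finset.sum_add_distrib, h0] at h
    have e1 : ∑ i : Fin (D + 1), t * a i * (p (j + i)).eval q =
        t * ∑ i : Fin (D + 1), a i * (p (i + j)).eval q := by
      rw [Finset.mul_sum]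
      exact Finset.sum_congr rfl fun i _ => by rw [add_comm j (i : ℕ)]; ring
    have e2 : ∑ i : Fin (D + 1), a i * t * (p (i + j)).eval q =
        t * ∑ i : Fin (D + 1), a i * (p (i + j)).eval q := by
      rw [Finset.mul_sum]
      exact Finset.sum_congr rfl fun i _ => by ring
    rw [e1, e2] at h
    linarith
  obtain ⟨B, hB⟩ : ∃ B, B = ∑ i : Fin (D + 1), a i * (p (i + j)).eval q := ⟨_, rfl⟩
  rw [← hB] at key ⊢
  have hc : 0 ≤ (p (j + j)).eval q := by
    have := even_nonneg hN hp hq j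
    rwa [two_mul] at this
  obtain ⟨C, hC⟩ : ∃ C, C = (p (j + j)).eval q := ⟨_, rfl⟩
  rw [← hC] at key hc
  by_contra hne
  have h1 := key (-B / (C + 1))
  have h2 : 0 < C + 1 := by linarith
  have h3 : -B / (C + 1) * (-B / (C + 1)) * C + 2 * (-B / (C + 1)) * B =
      -(B ^ 2 * (C + 2)) / (C + 1) ^ 2 := by
    field_simp
    ring
  rw [h3] at h1
  have h4 : 0 < B ^ 2 * (C + 2) / (C + 1) ^ 2 := by positivity
  rw [neg_div] at h1
  linarith

/-- there is a vector of norm zero among the first ones -/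
theorem exists_null (H : SimpleGraph (Fin n)) (hN : ∀ i, Crossless (N i))
    (hH : ∀ i a b, H.Adj a b → (N i).Adj (Sum.inr a) (Sum.inr b))
    (hp : ∀ i j, IsChrom (glue (N i) (N j)) (p (i + j))) (q : ℝ) :
    ∃ a : Fin (Nat.card (Pool.Agent.NH19.BLA.Parts H) + 1) → ℝ, a ≠ 0 ∧
      ∑ i, ∑ j, a i * a j * (p (i + j)).eval q = 0 := by
  classical
  have : Fintype (Pool.Agent.NH19.BLA.Parts H) := Fintype.ofFinite _
  obtain ⟨c, L, hcL⟩ := Pool.Agent.NH19.BLA.factor H V N hN hH (fun i j => p (i + j)) hp q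
  have hdep : ¬ LinearIndependent ℝ
      (fun i : Fin (Nat.card (Pool.Agent.NH19.BLA.Parts H) + 1) => c i) := by
    intro hli
    have h1 := hli.fintype_card_le_finrank
    simp at h1
  rw [Fintype.not_linearIndependent_iff] at hdep
  obtain ⟨a, ha, i0, hi0⟩ := hdep
  refine ⟨a, fun h => hi0 (by rw [h]; rfl), ?_⟩
  rw [Finset.sum_comm]
  refine Finset.sum_eq_zero fun j _ => ?_
  have h2 : ∑ i, a i * a j * (p (i + j)).eval q = a j * ∑ i, a i * ∑ σ, c i σ * L j σ := by
    rw [Finset.mul_sum]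
    refine Finset.sum_congr rfl fun i _ => ?_
    rw [hcL i j]
    ring
  have h3 : ∑ i, a i * ∑ σ, c i σ * L j σ = ∑ σ, (∑ i, a i * c i σ) * L j σ := by
    simp_rw [Finset.mul_sum, Finset.sum_mul]
    rw [Finset.sum_comm]
    exact Finset.sum_congr rfl fun σ _ => Finset.sum_congr rfl fun i _ => by ring
  have h4 : ∀ σ, ∑ i, a i * c i σ = 0 := by
    intro σ
    have := congrFun ha σ
    simpa using this
  rw [h2, h3]
  simp [h4]

end

theorem attach_boundary {V U : Type} {n : ℕ} (N : SimpleGraph (V ⊕ Fin n))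
    {A : SimpleGraph (U ⊕ (Fin n ⊕ Fin n))} {a b : Fin n} (hab : a ≠ b)
    (hA : A.Adj (Sum.inr (Sum.inr a)) (Sum.inr (Sum.inr b))) :
    (attach N A).Adj (Sum.inr a) (Sum.inr b) := by
  refine Or.inr ?_
  rw [SimpleGraph.map_adj']
  exact ⟨fun h => hab (Sum.inr_injective h), _, _, hA, rfl, rfl⟩

/-- the boundary edges of a tower -/
theorem tower_boundary {V U : Type} {n : ℕ} {N : SimpleGraph (V ⊕ Fin n)}
    {A : SimpleGraph (U ⊕ (Fin n ⊕ Fin n))} {H : SimpleGraph (Fin n)}
    (hN : ∀ a b, H.Adj a b → N.Adj (Sum.inr a) (Sum.inr b))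
    (hA : ∀ a b, H.Adj a b → A.Adj (Sum.inr (Sum.inr a)) (Sum.inr (Sum.inr b))) (k : ℕ) :
    ∀ a b, H.Adj a b → (tower N A k).Adj (Sum.inr a) (Sum.inr b) := by
  intro a b hab
  cases k with
  | zero => exact hN a b hab
  | succ k => exact attach_boundary (tower N A k) hab.ne (hA a b hab)

end Pool.Agent.NH46.BT
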