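import Pool.Agent.H207R2.BL.Mirror
import Pool.Agent.H207R2.BL.Minor
import Pool.Agent.Y865.RF.Fin
import Pool.Agent.Y406.SP.Small

/-! Chromatic polynomials of towers of planar graphs. -/

set_option autoImplicit false

namespace Pool.Agent.NH46.BT

open Polynomial Pool.Agent.H207R2.BL

/-- log-convex sequences which are nowhere negative -/
theorem logconvex_pos {a : ℕ → ℝ} (h0 : ∀ k, 0 ≤ a k)
    (hc : ∀ k, a (k + 1) ^ 2 ≤ a k * a (k + 2)) {j : ℕ} (hj : 1 ≤ j) (hne : a j ≠ 0) :
    ∀ k, 0 < a k := by
  have hpos : 0 < a j := lt_of_le_of_ne (h0 j) hne.symm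
  -- upwards
  have up : ∀ d, 0 < a (j + d) := by
    intro d
    induction d with
    | zero => simpa using hpos
    | succ d ih =>
      obtain ⟨m, hm⟩ : ∃ m, j + d = m + 1 := ⟨j + d - 1, by omega⟩
      have h1 := hc m
      rw [← hm] at h1
      have h2 : m + 2 = j + (d + 1) := by omega
      rw [h2] at h1
      rcases (h0 (j + (d + 1))).lt_or_eq with h3 | h3
      · exact h3
      · rw [← h3, mul_zero] at h1
        nlinarith
  -- downwards
  have down : ∀ d, d ≤ j → 0 < a (j - d) := by
    intro d
    induction d with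
    | zero => intro _; simpa using hpos
    | succ d ih =>
      intro hd
      have h1 := ih (by omega)
      have h2 := hc (j - (d + 1))
      have h3 : j - (d + 1) + 1 = j - d := by omega
      rw [h3] at h2
      rcases (h0 (j - (d + 1))).lt_or_eq with h4 | h4
      · exact h4
      · rw [← h4, zero_mul] at h2
        nlinarith
  intro k
  rcases le_total k j with hk | hk
  · have := down (j - k) (by omega)
    rwa [show j - (j - k) = k by omega] at this
  · have := up (k - j)
    rwa [show j + (k - j) = k by omega] at this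

theorem logconvex_ratio {a : ℕ → ℝ} (h0 : ∀ k, 0 ≤ a k)
    (hc : ∀ k, a (k + 1) ^ 2 ≤ a k * a (k + 2)) (k : ℕ) :
    a 1 * a k ≤ a 0 * a (k + 1) := by
  induction k with
  | zero => rw [mul_comm]
  | succ k ih =>
    rcases (h0 (k + 1)).lt_or_eq with h1 | h1
    · have h2 := hc k
      have h3 : 0 < a k := by
        rcases (h0 k).lt_or_eq with h3 | h3
        · exact h3
        · rw [← h3, zero_mul] at h2
          nlinarith
      have h4 : a k * (a 1 * a (k + 1)) ≤ a k * (a 0 * a (k + 2)) := by
        nlinarith [mul_le_mul_of_nonneg_right ih h1.le, mul_le_mul_of_nonneg_left h2 (h0 0)]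
      exact le_of_mul_le_mul_left h4 h3
    · rw [← h1, mul_zero]
      exact mul_nonneg (h0 0) (h0 _)

theorem logconvex_pow {a : ℕ → ℝ} (h0 : ∀ k, 0 ≤ a k)
    (hc : ∀ k, a (k + 1) ^ 2 ≤ a k * a (k + 2)) (k : ℕ) :
    a 1 ^ (k + 1) ≤ a (k + 1) * a 0 ^ k := by
  induction k with
  | zero => simp
  | succ k ih =>
    have h1 := logconvex_ratio h0 hc (k + 1)
    calc a 1 ^ (k + 1 + 1) = a 1 * a 1 ^ (k + 1) := by ring
      _ ≤ a 1 * (a (k + 1) * a 0 ^ k) := mul_le_mul_of_nonneg_left ih (h0 1)
      _ = (a 1 * a (k + 1)) * a 0 ^ k := by ring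
      _ ≤ (a 0 * a (k + 1 + 1)) * a 0 ^ k := mul_le_mul_of_nonneg_right h1 (pow_nonneg (h0 0) _)
      _ = a (k + 1 + 1) * a 0 ^ (k + 1) := by ring

variable {n : ℕ} {V : ℕ → Type} [∀ i, Finite (V i)] {N : ∀ i, SimpleGraph (V i ⊕ Fin n)}
  {p : ℕ → ℝ[X]}

/-- the forms are positive semidefinite -/
theorem hankel (hN : ∀ i, Crossless (N i)) (hp : ∀ i j, IsChrom (glue (N i) (N j)) (p (i + j)))
    {q : ℝ} (hq : 4 ≤ q) (m : ℕ) (a : Fin m → ℝ) :
    0 ≤ ∑ i : Fin m, ∑ j : Fin m, a i * a j * (p (i + j)).eval q :=
  psd (fun i : Fin m => V i) (fun i => N i) (fun i => hN i) (fun i j => p (i + j))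
    (fun i j => hp i j) q hq a

theorem even_nonneg (hN : ∀ i, Crossless (N i))
    (hp : ∀ i j, IsChrom (glue (N i) (N j)) (p (i + j))) {q : ℝ} (hq : 4 ≤ q) (k : ℕ) :
    0 ≤ (p (2 * k)).eval q := by
  have h := psd (J := Unit) (fun _ => V k) (fun _ => N k) (fun _ => hN k)
    (fun _ _ => p (k + k)) (fun _ _ => hp k k) q hq (fun _ => 1)
  simp only [Finset.univ_unique, Finset.sum_singleton, one_mul] at h
  rwa [two_mul]

theorem cs (hN : ∀ i, Crossless (N i)) (hp : ∀ i j, IsChrom (glue (N i) (N j)) (p (i + j)))
    {q : ℝ} (hq : 4 ≤ q) (i j : ℕ) :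
    (p (i + j)).eval q ^ 2 ≤ (p (2 * i)).eval q * (p (2 * j)).eval q := by
  have h : ∀ x y : ℝ, 0 ≤ x * x * (p (2 * i)).eval q + x * y * (p (i + j)).eval q +
      y * x * (p (i + j)).eval q + y * y * (p (2 * j)).eval q := by
    intro x y
    have h := psd (J := Bool) (fun b => V (if b then i else j)) (fun b => N (if b then i else j))
      (fun b => hN _) (fun b c => p ((if b then i else j) + (if c then i else j)))
      (fun b c => hp _ _) q hq (fun b => if b then x else y)
    simp only [Fintype.sum_bool, if_true] at h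
    simp only [Bool.false_eq_true, if_false] at h
    rw [show j + i = i + j by omega, ← two_mul, ← two_mul] at h
    linarith
  have hi := even_nonneg hN hp hq i
  have hj := even_nonneg hN hp hq j
  rcases hj.lt_or_eq with h1 | h1
  · have := quad_ineq h1 h
    linarith
  · rcases hi.lt_or_eq with h2 | h2
    · have := quad_ineq (A := (p (2 * j)).eval q) (B := (p (i + j)).eval q) h2 (fun x y => by
        have := h y x
        linarith)
      linarith
    · have h3 := h 1 1
      have h4 := h 1 (-1)
      rw [← h1, ← h2] at h3 h4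
      have h5 : (p (i + j)).eval q = 0 := by linarith
      rw [h5, ← h1]
      simp

/-- the Cauchy-Schwarz inequality for two halves -/
theorem cs_two {V W : Type} [Finite V] [Finite W] {n : ℕ} (N : SimpleGraph (V ⊕ Fin n))
    (M : SimpleGraph (W ⊕ Fin n)) (hN : Crossless N) (hM : Crossless M) {a b c : ℝ[X]}
    (ha : IsChrom (glue N N) a) (hb : IsChrom (glue N M) b) (hc : IsChrom (glue M M) c)
    {q : ℝ} (hq : 4 ≤ q) : b.eval q ^ 2 ≤ a.eval q * c.eval q := by
  have hb' : IsChrom (glue M N) b := by
    intro k
    rw [hb k]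
    have : Fintype V := Fintype.ofFinite V
    have : Fintype W := Fintype.ofFinite W
    classical
    rw [card_glue, card_glue]
    exact Finset.sum_congr rfl (fun c _ => mul_comm _ _)
  have h : ∀ x y : ℝ, 0 ≤ x * x * a.eval q + x * y * b.eval q +
      y * x * b.eval q + y * y * c.eval q := by
    intro x y
    let VV : Bool → Type := fun b => if b then V else W
    have hfin : ∀ b, Finite (VV b) := by
      intro b
      cases b
      · exact inferInstanceAs (Finite W)
      · exact inferInstanceAs (Finite V)
    let NN : ∀ b, SimpleGraph (VV b ⊕ Fin n) := fun b =>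
      match b with
      | true => N
      | false => M
    have hNN : ∀ b, Crossless (NN b) := by
      intro b
      cases b
      · exact hM
      · exact hN
    let P : Bool → Bool → ℝ[X] := fun s t =>
      match s, t with
      | true, true => a
      | true, false => b
      | false, true => b
      | false, false => c
    have hP : ∀ s t, IsChrom (glue (NN s) (NN t)) (P s t) := by
      intro s t
      cases s <;> cases t
      · exact hc
      · exact hb'
      · exact hb
      · exact ha
    have h := psd VV NN hNN P hP q hq (fun b => if b then x else y)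
    simp only [Fintype.sum_bool, P, if_true, Bool.false_eq_true, if_false] at h
    linarith
  have ha0 : 0 ≤ a.eval q := by simpa using h 1 0
  have hc0 : 0 ≤ c.eval q := by simpa using h 0 1
  rcases hc0.lt_or_eq with h1 | h1
  · have := quad_ineq h1 h
    linarith
  · rcases ha0.lt_or_eq with h2 | h2
    · have := quad_ineq (A := c.eval q) (B := b.eval q) h2 (fun x y => by
        have := h y x
        linarith)
      linarith
    · have h3 := h 1 1
      have h4 := h 1 (-1)
      rw [← h1, ← h2] at h3 h4
      have h5 : b.eval q = 0 := by linarith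
      rw [h5, ← h1]
      simp

end Pool.Agent.NH46.BT
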